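import Pool.Agent.Cremer.Final
import Pool.Agent.Cremer.Landing

/-!
# Components of a Cremer Julia set minus its accessible fixed point are uncountable in number
-/

open Set Filter Topology

namespace Pool.Agent.Results.MP_44ec17_an.UncountableComponents

/-- The quadratic polynomial `z ↦ z² + c`. -/
def quad (c z : ℂ) : ℂ := z ^ 2 + c

/-- The filled Julia set: the points with bounded forward orbit. -/
def filledJulia (c : ℂ) : Set ℂ :=
  {z | Bornology.IsBounded (Set.range fun n : ℕ => (quad c)^[n] z)}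

/-- The Julia set, the boundary of the filled Julia set. -/
def julia (c : ℂ) : Set ℂ := frontier (filledJulia c)

/-- The complement of the filled Julia set in the Riemann sphere. -/
def exterior (c : ℂ) : Set (OnePoint ℂ) := ((fun z : ℂ => (z : OnePoint ℂ)) '' filledJulia c)ᶜ

/-- The boundary point `x` of `U` is accessible from `U`: there is an embedding
`e : [0,1] → U ∪ {x}` with `e 0 ∈ U` and `e 1 = x`. -/
def AccessibleFrom (U : Set (OnePoint ℂ)) (x : OnePoint ℂ) : Prop :=
  x ∈ frontier U ∧ ∃ e : unitInterval → OnePoint ℂ,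
    IsEmbedding e ∧ (∀ t, e t ∈ U ∪ {x}) ∧ e 0 ∈ U ∧ e 1 = x

theorem quad_eq (c : ℂ) : quad c = Cremer.f c := rfl

theorem filledJulia_eq (c : ℂ) : filledJulia c = Cremer.K c := by
  ext z
  simp only [filledJulia, Cremer.K, Set.mem_ofPred_eq, isBounded_iff_forall_norm_le,
    forall_mem_range, quad_eq]

theorem julia_eq (c : ℂ) : julia c = Cremer.J c := by
  unfold julia Cremer.J
  rw [filledJulia_eq]

theorem accessible_of (c z₁ : ℂ) (h : AccessibleFrom (exterior c) z₁) : Cremer.Accessible c z₁ := by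
  obtain ⟨-, e, he, heU, -, he1⟩ := h
  have hcont : Continuous e := he.continuous
  -- near `1` the path stays in `ℂ`
  have hopen : IsOpen {t : unitInterval | e t ≠ OnePoint.infty} :=
    isOpen_compl_singleton.preimage hcont
  have h1mem : (1 : unitInterval) ∈ {t : unitInterval | e t ≠ OnePoint.infty} := by
    show e 1 ≠ OnePoint.infty
    rw [he1]
    exact OnePoint.coe_ne_infty z₁
  obtain ⟨δ, hδ, hball⟩ := Metric.isOpen_iff.mp hopen 1 h1mem
  -- the reparametrised path
  set t₀ : ℝ := max 0 (1 - δ / 2) with ht₀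
  have ht₀0 : 0 ≤ t₀ := le_max_left _ _
  have ht₀1 : t₀ < 1 := max_lt one_pos (by linarith)
  have hφ : ∀ s ∈ Icc (0:ℝ) 1, t₀ + s * (1 - t₀) ∈ Icc (0:ℝ) 1 := by
    intro s hs
    constructor
    · have := mul_nonneg hs.1 (sub_nonneg.mpr ht₀1.le)
      linarith
    · nlinarith [hs.1, hs.2]
  set φ : Icc (0:ℝ) 1 → unitInterval := fun s => ⟨t₀ + s.1 * (1 - t₀), hφ s.1 s.2⟩ with hφdef
  have hφc : Continuous φ := by
    apply Continuous.subtype_mk
    fun_prop
  have hφne : ∀ s, e (φ s) ≠ OnePoint.infty := by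
    intro s
    apply hball
    rw [Metric.mem_ball, Subtype.dist_eq, Real.dist_eq]
    have h1 : ((φ s : unitInterval) : ℝ) = t₀ + s.1 * (1 - t₀) := rfl
    have h2 : ((1 : unitInterval) : ℝ) = 1 := rfl
    rw [h1, h2]
    have h3 : 1 - δ / 2 ≤ t₀ := le_max_right _ _
    have h4 := s.2.1
    have h5 := s.2.2
    rw [abs_lt]
    constructor
    · nlinarith
    · nlinarith
  have hlift : ∀ s, ∃ z : ℂ, (z : OnePoint ℂ) = e (φ s) := fun s =>
    OnePoint.ne_infty_iff_exists.mp (hφne s)
  choose g hg using hlift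
  have hgc : Continuous g := by
    have hemb : IsOpenEmbedding ((↑) : ℂ → OnePoint ℂ) := OnePoint.isOpenEmbedding_coe
    rw [hemb.toIsEmbedding.continuous_iff]
    have : ((↑) : ℂ → OnePoint ℂ) ∘ g = e ∘ φ := funext hg
    rw [this]
    exact hcont.comp hφc
  refine ⟨Set.IccExtend (zero_le_one) g, ?_, ?_, ?_⟩
  · exact (hgc.Icc_extend' (h := zero_le_one)).continuousOn
  · intro t ht hK
    have htI : t ∈ Icc (0:ℝ) 1 := ⟨ht.1, ht.2.le⟩
    rw [Set.IccExtend_of_mem _ _ htI] at hK
    have hne1 : φ ⟨t, htI⟩ ≠ 1 := by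
      intro h
      have h1 : t₀ + t * (1 - t₀) = 1 := congrArg Subtype.val h
      have h2 : (1 - t) * (1 - t₀) = 0 := by linarith
      rcases mul_eq_zero.mp h2 with h3 | h3
      · linarith [ht.2]
      · linarith
    rcases heU (φ ⟨t, htI⟩) with h1 | h1
    · apply h1
      rw [filledJulia_eq]
      exact ⟨g ⟨t, htI⟩, hK, hg _⟩
    · have h2 : e (φ ⟨t, htI⟩) = e 1 := by rw [he1]; exact h1
      exact hne1 (he.injective h2)
  · have h1I : (1:ℝ) ∈ Icc (0:ℝ) 1 := by simp
    rw [Set.IccExtend_of_mem _ _ h1I]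
    have h1 : φ ⟨1, h1I⟩ = 1 := by
      apply Subtype.ext
      show t₀ + 1 * (1 - t₀) = 1
      ring
    have h2 := hg ⟨1, h1I⟩
    rw [h1, he1] at h2
    exact OnePoint.coe_injective h2

/-- **Main theorem.** Let `α` be irrational and let `z₁` be a fixed point of `z ↦ z² + c` with
multiplier `exp (2 π i α)`. If `z₁` is accessible from the exterior of the filled Julia set, then
the Julia set minus `z₁` has uncountably many connected components. -/
theorem result (c z₁ : ℂ) (α : ℝ) (hα : Irrational α) (hfix : quad c z₁ = z₁)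
    (hmul : deriv (quad c) z₁ = Complex.exp (2 * Real.pi * α * Complex.I))
    (hacc : AccessibleFrom (exterior c) z₁) :
    Uncountable (ConnectedComponents ↥(julia c \ {z₁})) := by
  have hacc' := accessible_of c z₁ hacc
  have hfix' : Cremer.f c z₁ = z₁ := hfix
  have hmul' : 2 * z₁ = Complex.exp (2 * Real.pi * α * Complex.I) := by
    rw [← hmul, quad_eq, (Cremer.hasDerivAt_f z₁).deriv]
  have hJ := Cremer.accessible_mem_J hfix' hacc'
  have h0 : (0:ℂ) ∈ Cremer.K c :=
    Cremer.zero_mem_K hfix' (Cremer.norm_mul_eq hmul') hJ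
  have hmain := Cremer.uncountable_of_landing hα hfix' hmul' hJ
    (fun Ψ hΨ => Cremer.exists_landing h0 hΨ hα hfix' hmul' hacc')
  rw [julia_eq]
  by_contra hcon
  rw [not_uncountable_iff] at hcon
  apply hmain
  have hsub : Cremer.comps c z₁ ⊆
      Set.range (fun C : ConnectedComponents ↥(Cremer.J c \ {z₁}) =>
        (Subtype.val '' (((↑) : ↥(Cremer.J c \ {z₁}) → ConnectedComponents _) ⁻¹' {C}) : Set ℂ)) := by
    rintro _ ⟨x, hx, rfl⟩
    refine ⟨((⟨x, hx⟩ : ↥(Cremer.J c \ {z₁})) : ConnectedComponents _), ?_⟩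
    simp only
    rw [connectedComponents_preimage_singleton, connectedComponentIn_eq_image hx]
  exact (Set.countable_range _).mono hsub

end Pool.Agent.Results.MP_44ec17_an.UncountableComponents
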